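import Pool.Agent.W5h68.Doyle.Ring

set_option autoImplicit false

/-!
# Locally univalent circle packings of the hexagonal complex are Doyle spirals

The vertex `v_{n,m}` of the hexagonal complex `H` is the pair `(n, m)` of integers, which stands
for the lattice point `n + m ω`, `ω = exp (i π / 3)`. The six neighbours of `v` are `v + dir i`,
`i : Fin 6`, in counterclockwise order (`1, ω, ω - 1, -1, -ω, 1 - ω`), and the six faces at `v` are
`v, v + dir i, v + dir (i + 1)`.

Proof. For a direction `e` the two labels `R` and `R (· + e)` are both packing labels. The first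
variation of the angle sums has symmetric coefficients, hence `f v = log R (v + e) - log R v` is
harmonic on the lattice for symmetric conductances, which are at most `1`. By the ring lemma
(which uses local univalence) `f` is bounded. The network is recurrent, so `f` is constant.
-/

namespace Pool.Agent.Results.MP_5725d1_gt.DoyleSpirals

open Pool.Agent.W5h68.Doyle

/-- `R` is a packing label for the hexagonal complex: a positive function whose angle sum is `2π`
at every vertex. -/
structure IsPackingLabel (R : ℤ × ℤ → ℝ) : Prop where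
  pos : ∀ v, 0 < R v
  sum : ∀ v, angleSum R v = 2 * Real.pi

/-- The circles with centres `Z v` and radii `R v` form a circle packing for the hexagonal complex:
circles of adjacent vertices are externally tangent, and the centres of the circles of each face
form a positively oriented triangle. -/
structure IsCirclePacking (R : ℤ × ℤ → ℝ) (Z : ℤ × ℤ → ℂ) : Prop where
  tangent : ∀ v i, dist (Z v) (Z (v + dir i)) = R v + R (v + dir i)
  oriented : ∀ v i, 0 < ((starRingEnd ℂ) (Z (v + dir i) - Z v) * (Z (v + dir (i + 1)) - Z v)).im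

/-- The packing is locally univalent: for every vertex `v`, the circle of `v` and the circles of
its six neighbours have pairwise disjoint interiors. -/
def LocallyUnivalent (R : ℤ × ℤ → ℝ) (Z : ℤ × ℤ → ℂ) : Prop :=
  ∀ v, (∀ i, Disjoint (Metric.ball (Z v) (R v)) (Metric.ball (Z (v + dir i)) (R (v + dir i)))) ∧
    ∀ i j, i ≠ j → Disjoint (Metric.ball (Z (v + dir i)) (R (v + dir i)))
      (Metric.ball (Z (v + dir j)) (R (v + dir j)))

/-- Every locally univalent circle packing for the hexagonal complex has a label of the form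
`c aⁿ bᵐ`: it is a regular hexagonal packing or a Doyle spiral. -/
theorem result : ∀ (R : ℤ × ℤ → ℝ) (Z : ℤ × ℤ → ℂ),
    IsPackingLabel R → IsCirclePacking R Z → LocallyUnivalent R Z →
      ∃ a b c : ℝ, 0 < a ∧ 0 < b ∧ 0 < c ∧ ∀ n m : ℤ, R (n, m) = c * a ^ n * b ^ m := by
  intro R Z hR hZ hU
  obtain ⟨κ, hκ⟩ : ∃ κ : ℝ, κ = ((1 / 15 : ℝ) ^ 32) ^ 2 := ⟨_, rfl⟩
  have hκ0 : 0 < κ := by rw [hκ]; positivity
  have hring : ∀ v i, κ * R v ≤ R (v + dir i) := by
    intro v i
    rw [hκ]
    refine ring_lemma (hR.pos v) (fun i => R (v + dir i)) (fun i => hR.pos _) (Z v)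
      (fun i => Z (v + dir i)) (fun i => hZ.tangent v i) ?_ ?_ (hR.sum v) i
    · intro i
      have h := hZ.tangent (v + dir i) (i + 2)
      rwa [add_assoc, dir_sum1] at h
    · intro i j hij
      exact (disjoint_ball_ball_iff (hR.pos _) (hR.pos _)).1 ((hU v).2 i j hij)
  refine label_rigid hR.pos hR.sum (M := - Real.log κ) ?_
  intro v j
  have h1 : Real.log κ + Real.log (R v) ≤ Real.log (R (v + dir j)) := by
    rw [← Real.log_mul hκ0.ne' (hR.pos v).ne']
    exact Real.log_le_log (mul_pos hκ0 (hR.pos v)) (hring v j)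
  have h2 : Real.log κ + Real.log (R (v + dir j)) ≤ Real.log (R v) := by
    rw [← Real.log_mul hκ0.ne' (hR.pos (v + dir j)).ne']
    refine Real.log_le_log (mul_pos hκ0 (hR.pos (v + dir j))) ?_
    have h3 := hring (v + dir j) (j + 3)
    rwa [dir_add_three, add_neg_cancel_right] at h3
  rw [abs_le]
  constructor
  · linarith
  · linarith

/-! ### Sanity check: the regular hexagonal packing satisfies the hypotheses -/

/-- The sixth root of unity. -/
noncomputable def ω : ℂ := ⟨1 / 2, Real.sqrt 3 / 2⟩

/-- Lattice points. -/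
noncomputable def pt (v : ℤ × ℤ) : ℂ := (v.1 : ℂ) + (v.2 : ℂ) * ω

lemma pt_sub (v w : ℤ × ℤ) : pt v - pt w = pt (v - w) := by
  simp [pt]; ring

lemma normSq_pt (v : ℤ × ℤ) : Complex.normSq (pt v) = (v.1 ^ 2 + v.1 * v.2 + v.2 ^ 2 : ℤ) := by
  have h3 : Real.sqrt 3 * Real.sqrt 3 = 3 := Real.mul_self_sqrt (by norm_num)
  simp only [pt, Complex.normSq_apply, Complex.add_re, Complex.intCast_re, Complex.mul_re,
    Complex.intCast_im, Complex.add_im, Complex.mul_im, ω]
  push_cast
  linear_combination ((v.2 : ℝ) ^ 2 / 4) * h3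

theorem regular_label : IsPackingLabel (fun _ => 1 / 2) := by
  refine ⟨fun _ => by norm_num, fun v => ?_⟩
  have : ang (1 / 2) (1 / 2) (1 / 2) = Real.pi / 3 := by
    have hpi := Real.pi_pos
    have e : (((1 / 2 : ℝ) + 1 / 2) ^ 2 + (1 / 2 + 1 / 2) ^ 2 - (1 / 2 + 1 / 2) ^ 2) /
        (2 * (1 / 2 + 1 / 2) * (1 / 2 + 1 / 2)) = Real.cos (Real.pi / 3) := by
      rw [Real.cos_pi_div_three]
      norm_num
    unfold ang
    rw [e]
    exact Real.arccos_cos (by linarith) (by linarith)
  unfold angleSum
  rw [Finset.sum_congr rfl (fun i _ => this)]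
  simp
  ring

theorem regular_packing : IsCirclePacking (fun _ => 1 / 2) pt := by
  have h3 : 0 < Real.sqrt 3 := Real.sqrt_pos.2 (by norm_num)
  refine ⟨fun v i => ?_, fun v i => ?_⟩
  · rw [dist_comm, dist_eq_norm, pt_sub, add_sub_cancel_left]
    have h1 : Complex.normSq (pt (dir i)) = 1 := by
      rw [normSq_pt]
      fin_cases i <;> simp [dir]
    rw [Complex.normSq_eq_norm_sq] at h1
    have h2 : ‖pt (dir i)‖ = 1 := by
      have := norm_nonneg (pt (dir i))
      nlinarith
    rw [h2]
    norm_num
  · rw [pt_sub, pt_sub, add_sub_cancel_left, add_sub_cancel_left]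
    fin_cases i <;> simp [dir, pt, ω] <;> nlinarith

theorem regular_univalent : LocallyUnivalent (fun _ => 1 / 2) pt := by
  have key : ∀ v w : ℤ × ℤ, v ≠ w → Disjoint (Metric.ball (pt v) (1 / 2)) 
      (Metric.ball (pt w) (1 / 2)) := by
    intro v w hvw
    rw [disjoint_ball_ball_iff (by norm_num) (by norm_num), dist_eq_norm, pt_sub]
    have h1 : (1 : ℝ) ≤ Complex.normSq (pt (v - w)) := by
      rw [normSq_pt]
      have : 1 ≤ (v - w).1 ^ 2 + (v - w).1 * (v - w).2 + (v - w).2 ^ 2 := by
        obtain ⟨a, ha⟩ : ∃ a, a = (v - w).1 := ⟨_, rfl⟩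
        obtain ⟨b, hb⟩ : ∃ b, b = (v - w).2 := ⟨_, rfl⟩
        rw [← ha, ← hb]
        have h0 : a ≠ 0 ∨ b ≠ 0 := by
          by_contra hcon
          push Not at hcon
          apply hvw
          have : v - w = 0 := Prod.ext (by rw [← ha]; exact hcon.1) (by rw [← hb]; exact hcon.2)
          exact sub_eq_zero.1 this
        have h2 : 0 < a ^ 2 + a * b + b ^ 2 := by
          rcases h0 with h0 | h0
          · have : 0 < a ^ 2 := by positivity
            nlinarith [sq_nonneg (a + 2 * b)]
          · have : 0 < b ^ 2 := by positivity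
            nlinarith [sq_nonneg (2 * a + b)]
        omega
      exact_mod_cast this
    rw [Complex.normSq_eq_norm_sq] at h1
    have := norm_nonneg (pt (v - w))
    nlinarith
  intro v
  refine ⟨fun i => key _ _ ?_, fun i j hij => key _ _ ?_⟩
  · intro h
    have h1 : dir i = 0 := by simpa using h.symm
    revert h1
    fin_cases i <;> simp [dir]
  · intro h
    have h1 : dir i = dir j := by simpa using h
    revert h1 hij
    fin_cases i <;> fin_cases j <;> simp [dir]

end Pool.Agent.Results.MP_5725d1_gt.DoyleSpirals
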